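import Pool.Agent.Helper882.NonReflexive

set_option autoImplicit false
set_option linter.unusedSectionVars false

open MeasureTheory Set Topology Filter
open scoped NNReal ENNReal
open Pool.Agent.Helper882.UniformAlgebra

namespace Pool.Agent.Results.MP_71b3bb_an.NotReflexive

section defs

variable {S : Type} [TopologicalSpace S] [CompactSpace S] [MeasurableSpace S] [BorelSpace S]

/-- `B` is the closure of the set of functions `f + conj g` for the weak-star topology of
`L^∞(μ)`. -/
def IsWeakStarClosure (A : Subalgebra ℂ C(S, ℂ)) (μ : Measure S)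
    (B : Submodule ℂ (Lp ℂ ∞ μ)) : Prop :=
  (B : Set (Lp ℂ ∞ μ)) = @closure _ (weakStar μ) (sumSet A μ ∞)

/-- `B` is closed for the norm of `L^∞(μ)`. -/
def NormClosed (μ : Measure S) (B : Submodule ℂ (Lp ℂ ∞ μ)) : Prop :=
  IsClosed (B : Set (Lp ℂ ∞ μ))

/-- A (semi)normed space is reflexive if the canonical embedding into its bidual is
surjective. -/
def IsReflexive (X : Type*) [SeminormedAddCommGroup X] [NormedSpace ℂ X] : Prop :=
  Function.Surjective (NormedSpace.inclusionInDoubleDual ℂ X)

/-- The quotient `L^∞(μ) / B` with the quotient norm is reflexive. -/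
def QuotientReflexive (μ : Measure S) (B : Submodule ℂ (Lp ℂ ∞ μ)) : Prop :=
  IsReflexive (Lp ℂ ∞ μ ⧸ B)

end defs

/-- There are a compact space `S`, an algebra `A` satisfying the standing hypotheses and an
extremal measure `μ` such that the weak-star closure `B` of the functions `f + conj g` in
`L^∞(μ)` is a norm-closed subspace and the quotient `L^∞(μ) / B` is not reflexive. -/
theorem result :
    ∃ (S : Type) (_ : TopologicalSpace S) (_ : CompactSpace S) (_ : T2Space S)
      (_ : MeasurableSpace S) (_ : BorelSpace S) (A : Subalgebra ℂ C(S, ℂ)) (μ : FiniteMeasure S),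
      Admissible A ∧ (μ : Measure S).Regular ∧ Extremal A μ ∧
      ∃ B : Submodule ℂ (Lp ℂ ∞ (μ : Measure S)),
        IsWeakStarClosure A (μ : Measure S) B ∧ NormClosed (μ : Measure S) B ∧
        ¬ QuotientReflexive (μ : Measure S) B := by
  let c : ℕ → ℝ≥0 := fun k => (1 / 2) ^ k
  let ω : ℕ → Measure TT := fun k => c k • WW
  have hfin : IsFiniteMeasure (PP ω) := by
    constructor
    rw [PP_apply _ _ MeasurableSet.univ]
    simp only [preimage_univ]
    have h1 : ∀ k, ω k univ = (c k : ℝ≥0∞) * WW univ := by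
      intro k
      show (c k • WW) univ = _
      rw [Measure.smul_apply, ENNReal.smul_def, smul_eq_mul]
    simp_rw [h1]
    rw [ENNReal.tsum_mul_right]
    apply ENNReal.mul_lt_top _ (measure_lt_top _ _)
    rw [lt_top_iff_ne_top, ENNReal.tsum_coe_ne_top_iff_summable]
    exact NNReal.summable_geometric (by norm_num)
  have hsmall : ∀ k, Small (ω k) := fun k => small_WW (c k)
  have hac : ∀ k, (volume : Measure TT) ≪ ω k := by
    intro k
    apply vol_ac_WW.trans
    intro E hE
    have h1 : (c k : ℝ≥0∞) * WW E = 0 := by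
      have h2 : (c k • WW) E = 0 := hE
      rwa [Measure.smul_apply, ENNReal.smul_def, smul_eq_mul] at h2
    rcases mul_eq_zero.mp h1 with h2 | h2
    · exfalso
      have h3 : c k = 0 := by exact_mod_cast h2
      have h4 : 0 < c k := by positivity
      exact h4.ne' h3
    · exact h2
  let μ : Measure (PolyDisc ℕ) := PP ω
  have hμf : IsFiniteMeasure μ := hfin
  have hmap : ∀ i, (volume : Measure TT).map (circ i) ≪ μ := by
    intro i
    have h1 : (volume : Measure TT).map (circ i) ≪ (ω i).map (circ i) :=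
      (hac i).map (circ_embedding i).measurable
    exact h1.trans (Measure.absolutelyContinuous_of_le (Measure.le_sum _ i))
  let M : Submodule ℂ (Lp ℂ ∞ μ) := sumSub (polyAlg ℕ) μ ∞
  -- densities
  choose d hd using fun i => exists_density ω i (hac i)
  have hpd : ∀ i (u : Lp ℂ ∞ μ), pair μ u (d i) = ∫ x : TT, u (circ i x) := fun i u =>
    hd i u (Lp.aestronglyMeasurable u)
  have hvol : (volume : Measure TT).real univ = 1 := by
    rw [measureReal_def, UnitAddCircle.measure_univ]; rfl
  have hval : ∀ i (u : Lp ℂ ∞ μ), ∀ f ∈ polyAlg ℕ, ∀ g ∈ polyAlg ℕ,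
      (⇑u =ᵐ[μ] fun s => f s + (starRingEnd ℂ) (g s)) →
      pair μ u (d i) = f (fun _ => ⟨0, by simp⟩) + (starRingEnd ℂ) (g (fun _ => ⟨0, by simp⟩)) := by
    intro i u f hf g hg hu
    rw [hpd]
    have h1 : ∀ᵐ x : TT, u (circ i x) = f (circ i x) + (starRingEnd ℂ) (g (circ i x)) := by
      have h2 := (hmap i).ae_le hu
      exact (circ_embedding i).ae_map_iff.mp h2
    rw [integral_congr_ae h1]
    have hif : Integrable (fun x : TT => f (circ i x)) :=
      (BoundedContinuousFunction.mkOfCompact
        (f.comp ⟨circ i, circ_continuous i⟩)).integrable _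
    have hig : Integrable (fun x : TT => (starRingEnd ℂ) (g (circ i x))) :=
      (BoundedContinuousFunction.mkOfCompact
        (⟨fun x => (starRingEnd ℂ) (g (circ i x)),
          Complex.continuous_conj.comp (g.continuous.comp (circ_continuous i))⟩ :
            C(TT, ℂ))).integrable _
    rw [integral_add hif hig, mean_value i f hf, integral_conj, mean_value i g hg]
  let h : ℕ → Lp ℂ 1 μ := fun k => d (k + 1) - d 0
  have hh : ∀ k, ∀ v ∈ M, pair μ v (h k) = 0 := by
    rintro k v ⟨f, hf, g, hg, hv⟩
    show pair μ v (d (k + 1) - d 0) = 0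
    rw [map_sub, hval (k + 1) v f hf g hg hv, hval 0 v f hf g hg hv, sub_self]
  have hbd : ∀ i (u : Lp ℂ ∞ μ), ‖pair μ u (d i)‖ ≤ ‖u‖ := by
    intro i u
    rw [hpd]
    have h1 : ∀ᵐ x : TT, ‖u (circ i x)‖ ≤ ‖u‖ := by
      have h2 := (hmap i).ae_le (ae_norm_le μ u)
      exact (circ_embedding i).ae_map_iff.mp h2
    have h3 := norm_integral_le_of_norm_le_const h1
    rwa [hvol, mul_one] at h3
  have hC : ∀ k u, ‖pair μ u (h k)‖ ≤ 2 * ‖u‖ := by
    intro k u
    show ‖pair μ u (d (k + 1) - d 0)‖ ≤ _
    rw [map_sub]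
    refine (norm_sub_le _ _).trans ?_
    have h1 := hbd (k + 1) u
    have h2 := hbd 0 u
    linarith
  let E : ℕ → Set (PolyDisc ℕ) := fun K => ⋃ k ∈ Set.Ici K, range (circ (k + 1))
  have hE : ∀ K, MeasurableSet (E K) := fun K =>
    MeasurableSet.biUnion (Set.to_countable _) (fun k _ => (circ_embedding (k + 1)).measurableSet_range)
  have hanti : Antitone E := by
    intro K L hKL s hs
    simp only [E, mem_iUnion] at hs ⊢
    obtain ⟨k, hk, hks⟩ := hs
    exact ⟨k, le_trans hKL hk, hks⟩
  have hemp : ⋂ K, E K = ∅ := by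
    apply Set.eq_empty_of_forall_notMem
    intro s hs
    rw [mem_iInter] at hs
    have h1 := hs 0
    simp only [E, mem_iUnion] at h1
    obtain ⟨k, _, hks⟩ := h1
    have h2 := hs (k + 1)
    simp only [E, mem_iUnion] at h2
    obtain ⟨l, hl, hls⟩ := h2
    have hne : k + 1 ≠ l + 1 := by
      have : k + 1 ≤ l := hl
      omega
    exact Set.disjoint_left.mp (circ_disjoint hne) hks hls
  have hval' : ∀ K k, K ≤ k →
      pair μ (indicatorConstLp ∞ (hE K) (measure_ne_top μ _) (1 : ℂ)) (h k) = 1 := by
    intro K k hKk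
    show pair μ _ (d (k + 1) - d 0) = 1
    rw [map_sub, hpd, hpd]
    have hv : ∀ᵐ s ∂μ, (indicatorConstLp ∞ (hE K) (measure_ne_top μ _) (1 : ℂ)) s =
      (E K).indicator (fun _ => (1 : ℂ)) s := indicatorConstLp_coeFn
    have h1 : ∀ᵐ x : TT, (indicatorConstLp ∞ (hE K) (measure_ne_top μ _) (1 : ℂ))
        (circ (k + 1) x) = 1 := by
      have h2 := (circ_embedding (k + 1)).ae_map_iff.mp ((hmap (k + 1)).ae_le hv)
      filter_upwards [h2] with x hx
      rw [hx]
      apply Set.indicator_of_mem
      simp only [E, mem_iUnion]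
      exact ⟨k, hKk, Set.mem_range_self x⟩
    have h3 : ∀ᵐ x : TT, (indicatorConstLp ∞ (hE K) (measure_ne_top μ _) (1 : ℂ))
        (circ 0 x) = 0 := by
      have h2 := (circ_embedding 0).ae_map_iff.mp ((hmap 0).ae_le hv)
      filter_upwards [h2] with x hx
      rw [hx]
      apply Set.indicator_of_notMem
      simp only [E, mem_iUnion]
      rintro ⟨l, _, hl⟩
      exact Set.disjoint_left.mp (circ_disjoint (i := 0) (j := l + 1) (by omega))
        (Set.mem_range_self x) hl
    rw [integral_congr_ae h1, integral_congr_ae h3]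
    simp [hvol]
  have key : ¬ Function.Surjective
      (NormedSpace.inclusionInDoubleDual ℂ (Lp ℂ ∞ μ ⧸ wcl μ M)) := by
    refine not_reflexive μ M ((wcl μ M).mkQ) ?_ h hh 2 hC E hE hanti hemp hval'
    constructor
    · intro x ε hε
      obtain ⟨u, hu1, hu2⟩ := Submodule.Quotient.norm_mk_lt x hε
      exact ⟨u, hu1, hu2⟩
    · intro u
      exact Submodule.Quotient.norm_mk_le _ _
    · intro u
      rw [Submodule.mkQ_apply, Submodule.Quotient.mk_eq_zero, mem_wcl]
  exact ⟨PolyDisc ℕ, inferInstance, inferInstance, inferInstance, inferInstance, inferInstance,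
    polyAlg ℕ, PPf ω hfin, polyAlg_admissible ℕ, regular_all _, extremal_of_small ω hfin hsmall,
    wcl μ M, rfl, wcl_closed μ M, key⟩

end Pool.Agent.Results.MP_71b3bb_an.NotReflexive
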